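import Pool.Agent.Q25.PLP.Stm

/-!
# Job PLP-ABS (project PLP of helper25)
-/

set_option autoImplicit false

open Finset Pool.Agent.Q25.PLP Set Filter Topology

namespace Pool.Agent.Q96.PLP

theorem der_min (c x : ℝ) : HasDerivWithinAt (fun t : ℝ => min c t) (if x < c then 1 else 0)
    (Ici x) x := by
  split_ifs with h
  · have h1 : HasDerivAt (fun t : ℝ => min c t) 1 x := by
      apply (hasDerivAt_id x).congr_of_eventuallyEq
      filter_upwards [Iio_mem_nhds h] with t ht
      exact min_eq_right (le_of_lt ht)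
    exact h1.hasDerivWithinAt
  · push Not at h
    apply (hasDerivWithinAt_const x (Ici x) c).congr
    · intro t ht
      exact min_eq_left (h.trans ht)
    · exact min_eq_left h

theorem der_pos (u : ℝ) : HasDerivAt (fun t : ℝ => (max t 0) ^ 2) (2 * max u 0) u := by
  rcases lt_trichotomy u 0 with h | h | h
  · have h1 : HasDerivAt (fun t : ℝ => (max t 0) ^ 2) 0 u := by
      apply (hasDerivAt_const u (0 : ℝ)).congr_of_eventuallyEq
      filter_upwards [Iio_mem_nhds h] with t ht
      rw [max_eq_right (le_of_lt ht)]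
      norm_num
    rw [max_eq_right h.le]
    simpa using h1
  · subst h
    have h1 : (fun t : ℝ => (max t 0) ^ 2) =O[𝓝 0] fun t => ‖t - 0‖ ^ 2 := by
      apply Asymptotics.IsBigO.of_bound 1
      filter_upwards with t
      rw [sub_zero, one_mul, norm_pow, norm_pow, norm_norm]
      apply pow_le_pow_left₀ (norm_nonneg _)
      rw [Real.norm_eq_abs, Real.norm_eq_abs, abs_of_nonneg (le_max_right t 0)]
      exact max_le (le_abs_self t) (abs_nonneg t)
    have h2 := (h1.hasFDerivAt (by norm_num)).hasDerivAt
    simpa using h2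
  · have h1 : HasDerivAt (fun t : ℝ => (max t 0) ^ 2) (2 * u) u := by
      have h2 : HasDerivAt (fun t : ℝ => t ^ 2) (2 * u) u := by
        simpa using hasDerivAt_pow 2 u
      apply h2.congr_of_eventuallyEq
      filter_upwards [Ioi_mem_nhds h] with t ht
      rw [max_eq_left (le_of_lt ht)]
    rw [max_eq_left h.le]
    exact h1

theorem t_ABS : S_ABS := by
  intro Z Y _ _ ζ ξ k N hN hζ hξ hk h1 h2
  classical
  have hs : ∀ θ : ℝ, ((univ.filter (fun z => θ < ζ z)).card : ℝ) =
      ∑ z, (if θ < ζ z then (1 : ℝ) else 0) := fun θ => Finset.natCast_card_filter _ _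
  have hy : ∀ θ : ℝ, ((univ.filter (fun l => θ < ξ l)).card : ℝ) =
      ∑ l, (if θ < ξ l then (1 : ℝ) else 0) := fun θ => Finset.natCast_card_filter _ _
  let F : ℝ → ℝ := fun θ => N * ∑ z, min (ζ z) θ - ∑ l, min (ξ l) θ
  let F' : ℝ → ℝ := fun θ => N * ∑ z, (if θ < ζ z then (1 : ℝ) else 0) -
    ∑ l, (if θ < ξ l then (1 : ℝ) else 0)
  have hF : ∀ x, HasDerivWithinAt F (F' x) (Ici x) x := by
    intro x
    apply HasDerivWithinAt.sub
    · apply HasDerivWithinAt.const_mul
      apply HasDerivWithinAt.fun_sum
      intro z _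
      exact der_min (ζ z) x
    · apply HasDerivWithinAt.fun_sum
      intro z _
      exact der_min (ξ z) x
  have hFc : Continuous F := by
    apply Continuous.sub
    · apply Continuous.mul continuous_const
      exact continuous_finsetSum _ (fun z _ => continuous_const.min continuous_id)
    · exact continuous_finsetSum _ (fun z _ => continuous_const.min continuous_id)
  have hF0 : F 0 = 0 := by
    simp only [F]
    have e1 : ∀ z, min (ζ z) 0 = 0 := fun z => min_eq_right (hζ z)
    have e2 : ∀ z, min (ξ z) 0 = 0 := fun z => min_eq_right (hξ z)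
    simp [e1, e2]
  have hF'1 : ∀ x, 0 ≤ x → F' x ≤ (N - 1) * ∑ z, (if x < ζ z then (1 : ℝ) else 0) := by
    intro x hx
    have := h1 x hx
    have h3 : ((univ.filter (fun z => x < ζ z)).card : ℝ) ≤
      ((univ.filter (fun l => x < ξ l)).card : ℝ) := by exact_mod_cast this
    rw [hs, hy] at h3
    simp only [F']
    linarith
  have hFk : ∀ z, ∀ x, 0 ≤ x → x ≤ ζ z → F x ≤ N * k z * x := by
    intro z x hx0 hxz
    have := image_le_of_deriv_right_le_deriv_boundary (f := F) (f' := F') (a := 0) (b := ζ z)
      (B := fun t => N * k z * t) (B' := fun _ => N * k z) hFc.continuousOn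
      (fun x _ => hF x) (by simp [hF0]) (by fun_prop)
      (fun x _ => by
        have := ((hasDerivAt_id x).const_mul (N * k z)).hasDerivWithinAt (s := Ici x)
        simpa using this)
      (by
        intro x hx
        have h3 := h2 x hx.1 z hx.2
        rw [hs, hy] at h3
        simp only [F']
        linarith)
    exact this ⟨hx0, hxz⟩
  let R : ℝ := ∑ z, ζ z + ∑ l, ξ l
  have hR0 : 0 ≤ R := add_nonneg (Finset.sum_nonneg fun z _ => hζ z)
    (Finset.sum_nonneg fun z _ => hξ z)
  have hRζ : ∀ z, ζ z ≤ R := by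
    intro z
    have h3 := Finset.single_le_sum (f := ζ) (fun z _ => hζ z) (Finset.mem_univ z)
    have h4 := Finset.sum_nonneg (s := univ) (f := ξ) (fun z _ => hξ z)
    simp only [R]
    linarith
  have hRξ : ∀ z, ξ z ≤ R := by
    intro z
    have h3 := Finset.single_le_sum (f := ξ) (fun z _ => hξ z) (Finset.mem_univ z)
    have h4 := Finset.sum_nonneg (s := univ) (f := ζ) (fun z _ => hζ z)
    simp only [R]
    linarith
  have hFR : F R = N * ∑ z, ζ z - ∑ l, ξ l := by
    simp only [F]
    have e1 : ∀ z, min (ζ z) R = ζ z := fun z => min_eq_left (hRζ z)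
    have e2 : ∀ z, min (ξ z) R = ξ z := fun z => min_eq_left (hRξ z)
    simp [e1, e2]
  have hmain := image_le_of_deriv_right_le_deriv_boundary
    (f := fun t => (max (F t) 0) ^ 2) (f' := fun t => (2 * max (F t) 0) * F' t) (a := 0) (b := R)
    (B := fun t => N * (N - 1) * ∑ z, k z * (min (ζ z) t) ^ 2)
    (B' := fun t => N * (N - 1) * ∑ z, k z * (2 * min (ζ z) t * (if t < ζ z then 1 else 0)))
    (by fun_prop)
    (fun x _ => (der_pos (F x)).comp_hasDerivWithinAt x (hF x))
    (by
      simp only [hF0]
      have e1 : ∀ z, min (ζ z) 0 = 0 := fun z => min_eq_right (hζ z)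
      simp [e1])
    (by fun_prop)
    (fun x _ => by
      apply HasDerivWithinAt.const_mul
      apply HasDerivWithinAt.fun_sum
      intro z _
      apply HasDerivWithinAt.const_mul
      simpa using (der_min (ζ z) x).fun_pow 2)
    (by
      intro x hx
      have hm0 : 0 ≤ max (F x) 0 := le_max_right _ _
      calc 2 * max (F x) 0 * F' x
          ≤ 2 * max (F x) 0 * ((N - 1) * ∑ z, (if x < ζ z then (1 : ℝ) else 0)) :=
            mul_le_mul_of_nonneg_left (hF'1 x hx.1) (by positivity)
        _ = (N - 1) * ∑ z, (2 * max (F x) 0 * (if x < ζ z then (1 : ℝ) else 0)) := by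
            rw [← Finset.mul_sum]
            ring
        _ ≤ (N - 1) * ∑ z, N * (k z * (2 * min (ζ z) x * (if x < ζ z then 1 else 0))) := by
            apply mul_le_mul_of_nonneg_left _ (by linarith)
            apply Finset.sum_le_sum
            intro z _
            split_ifs with hz
            · have h3 := hFk z x hx.1 hz.le
              rw [min_eq_right hz.le]
              have h4 : max (F x) 0 ≤ N * k z * x :=
                max_le h3 (mul_nonneg (mul_nonneg (by linarith) (hk z)) hx.1)
              linarith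
            · simp
        _ = _ := by
            rw [← Finset.mul_sum]
            ring)
  have hend := hmain (show R ∈ Icc 0 R from ⟨hR0, le_rfl⟩)
  have e1 : ∀ z, min (ζ z) R = ζ z := fun z => min_eq_left (hRζ z)
  simp only [e1] at hend
  have hQ0 : 0 ≤ ∑ z, k z * (ζ z) ^ 2 :=
    Finset.sum_nonneg fun z _ => mul_nonneg (hk z) (sq_nonneg _)
  have hNN : 0 ≤ N * (N - 1) := mul_nonneg (by linarith) (by linarith)
  have hfin : 2 * max (F R) 0 ≤ N * (N - 1) + ∑ z, k z * (ζ z) ^ 2 := by
    apply abs_le_of_sq_le_sq' _ (by linarith) |>.2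
    nlinarith [sq_nonneg (N * (N - 1) - ∑ z, k z * (ζ z) ^ 2)]
  have hle : F R ≤ max (F R) 0 := le_max_left _ _
  rw [hFR] at hle hfin
  linarith

end Pool.Agent.Q96.PLP
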