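import Pool.Agent.Q25.PLP.Stm

/-!
# Jobs PLP-B1, PLP-DBE (project PLP of helper25)
-/

set_option autoImplicit false

open Finset Pool.Agent.Q25.PLP

namespace Pool.Agent.Q96.PLP

variable {P : Type} [DecidableEq P]

/-- a homogeneous linear system with fewer equations than unknowns -/
theorem hom_sys (T : Finset P) (K : Finset (Finset P)) (h : K.card < T.card) :
    ∃ v : P → ℝ, (∀ z, z ∉ T → v z = 0) ∧ (∃ z ∈ T, v z ≠ 0) ∧ ∀ l ∈ K, ∑ z ∈ l, v z = 0 := by
  classical
  let e : (T → ℝ) →ₗ[ℝ] (P → ℝ) :=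
    { toFun := fun w z => if hz : z ∈ T then w ⟨z, hz⟩ else 0
      map_add' := by
        intro a b
        funext z
        by_cases hz : z ∈ T <;> simp [hz]
      map_smul' := by
        intro a b
        funext z
        by_cases hz : z ∈ T <;> simp [hz] }
  let g : (P → ℝ) →ₗ[ℝ] (K → ℝ) :=
    { toFun := fun v l => ∑ z ∈ (l : Finset P), v z
      map_add' := by
        intro a b
        funext l
        simp [Finset.sum_add_distrib]
      map_smul' := by
        intro a b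
        funext l
        simp [Finset.mul_sum] }
  have h1 : LinearMap.ker (g.comp e) ≠ ⊥ := by
    apply LinearMap.ker_ne_bot_of_finrank_lt
    simpa using h
  obtain ⟨w, hw, hw0⟩ := (Submodule.ne_bot_iff _).1 h1
  refine ⟨e w, ?_, ?_, ?_⟩
  · intro z hz
    simp [e, hz]
  · by_contra hcon
    push Not at hcon
    apply hw0
    funext t
    have := hcon t.1 t.2
    simpa [e] using this
  · intro l hl
    have h2 : (g.comp e) w = 0 := hw
    have h3 := congrFun h2 ⟨l, hl⟩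
    simpa [g] using h3

theorem quad (K : Finset (Finset P)) (T : Finset P) (v : P → ℝ) (hv : ∀ z, z ∉ T → v z = 0)
    (h1 : ∀ z ∈ T, ∀ w ∈ T, z ≠ w → (K.filter (fun l => z ∈ l ∧ w ∈ l)).card = 1) :
    ∑ l ∈ K, (∑ z ∈ l, v z) ^ 2 = (∑ z ∈ T, v z) ^ 2 +
      ∑ z ∈ T, (((K.filter (fun l => z ∈ l)).card : ℝ) - 1) * (v z) ^ 2 := by
  classical
  have hl : ∀ l : Finset P, ∑ z ∈ l, v z = ∑ z ∈ T, if z ∈ l then v z else 0 := by
    intro l
    rw [← Finset.sum_filter]
    have h2 : ∑ z ∈ l, v z = ∑ z ∈ l.filter (fun z => z ∈ T), v z := by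
      symm
      apply Finset.sum_filter_of_ne
      intro z _ hz
      by_contra hc
      exact hz (hv z hc)
    rw [h2]
    apply Finset.sum_congr _ (fun _ _ => rfl)
    ext z
    simp [and_comm]
  have hA : ∑ l ∈ K, (∑ z ∈ l, v z) ^ 2 =
      ∑ z ∈ T, ∑ w ∈ T, v z * v w * ((K.filter (fun l => z ∈ l ∧ w ∈ l)).card : ℝ) := by
    have hB : ∀ l ∈ K, (∑ z ∈ l, v z) ^ 2 =
        ∑ z ∈ T, ∑ w ∈ T, v z * v w * (if z ∈ l ∧ w ∈ l then (1 : ℝ) else 0) := by
      intro l _
      rw [hl l, sq, Finset.sum_mul_sum]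
      apply Finset.sum_congr rfl
      intro z _
      apply Finset.sum_congr rfl
      intro w _
      by_cases a : z ∈ l <;> by_cases b : w ∈ l <;> simp [a, b]
    rw [Finset.sum_congr rfl hB, Finset.sum_comm]
    apply Finset.sum_congr rfl
    intro z _
    rw [Finset.sum_comm]
    apply Finset.sum_congr rfl
    intro w _
    rw [← Finset.mul_sum, Finset.natCast_card_filter]
  have hC : ∀ z ∈ T, ∑ w ∈ T, v z * v w * ((K.filter (fun l => z ∈ l ∧ w ∈ l)).card : ℝ) =
      v z * (∑ w ∈ T, v w) + (((K.filter (fun l => z ∈ l)).card : ℝ) - 1) * (v z) ^ 2 := by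
    intro z hz
    have h3 : ∀ w ∈ T, v z * v w * ((K.filter (fun l => z ∈ l ∧ w ∈ l)).card : ℝ) =
        v z * v w + (if w = z then (((K.filter (fun l => z ∈ l)).card : ℝ) - 1) * (v z) ^ 2
          else 0) := by
      intro w hw
      by_cases hzw : w = z
      · subst hzw
        simp only [and_self, if_true]
        ring
      · rw [h1 z hz w hw (fun h => hzw h.symm)]
        simp [hzw]
    rw [Finset.sum_congr rfl h3, Finset.sum_add_distrib, ← Finset.mul_sum,
      Finset.sum_ite_eq' T z]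
    simp [hz]
  rw [hA, Finset.sum_congr rfl hC, Finset.sum_add_distrib, ← Finset.sum_mul]
  ring

section ls
variable {V : Finset P} {L : Finset (Finset P)}

theorem two_thr (h : IsLS V L) {z : P} (hz : z ∈ V) : 2 ≤ (thr L z).card := by
  obtain ⟨l, hl⟩ := h.ne
  have h2 := h.two_le l hl
  obtain ⟨w, hw, hwz⟩ : ∃ w ∈ l, w ≠ z := by
    obtain ⟨w, hw, hwz⟩ := Finset.exists_mem_ne (show 1 < l.card by omega) z
    exact ⟨w, hw, hwz⟩
  obtain ⟨l1, hl1, hz1, hw1⟩ := h.ex z hz w (h.sub l hl hw) (fun e => hwz e.symm)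
  obtain ⟨u, hu, hu1⟩ := h.ncol l1 hl1
  obtain ⟨l2, hl2, hz2, hu2⟩ := h.ex z hz u hu (fun e => hu1 (e ▸ hz1))
  have hne : l1 ≠ l2 := fun e => hu1 (e ▸ hu2)
  have hsub : ({l1, l2} : Finset (Finset P)) ⊆ thr L z := by
    intro t ht
    simp only [Finset.mem_insert, Finset.mem_singleton] at ht
    simp only [thr, Finset.mem_filter]
    rcases ht with rfl | rfl
    · exact ⟨hl1, hz1⟩
    · exact ⟨hl2, hz2⟩
  calc 2 = ({l1, l2} : Finset (Finset P)).card := (Finset.card_pair hne).symm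
    _ ≤ _ := Finset.card_le_card hsub

theorem pair_one (h : IsLS V L) {K : Finset (Finset P)} (hK : K ⊆ L) {z w : P} (hzw : z ≠ w)
    (hex : ∃ l ∈ K, z ∈ l ∧ w ∈ l) : (K.filter (fun l => z ∈ l ∧ w ∈ l)).card = 1 := by
  obtain ⟨l, hl, hz, hw⟩ := hex
  rw [Finset.card_eq_one]
  refine ⟨l, ?_⟩
  ext t
  simp only [Finset.mem_filter, Finset.mem_singleton]
  constructor
  · rintro ⟨ht, hz', hw'⟩
    exact h.uniq t (hK ht) l (hK hl) z w hzw hz' hw' hz hw
  · rintro rfl
    exact ⟨hl, hz, hw⟩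

end ls

theorem t_B1 : S_B1 := by
  intro P _ V L h S hSV hSn hSne
  classical
  by_contra hcon
  push Not at hcon
  obtain ⟨x, hxV, hxS⟩ : ∃ x ∈ V, x ∉ S := by
    by_contra hc
    push Not at hc
    exact hSne (Finset.Subset.antisymm hSV hc)
  have hTc : (insert x S).card = S.card + 1 := Finset.card_insert_of_notMem hxS
  obtain ⟨v, hv0, ⟨z0, hz0, hvz0⟩, hv⟩ := hom_sys (insert x S) (mee L S) (by omega)
  have hmeeL : mee L S ⊆ L := Finset.filter_subset _ _
  have hTV : ∀ z ∈ insert x S, z ∈ V := by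
    intro z hz
    rcases Finset.mem_insert.1 hz with rfl | hz
    · exact hxV
    · exact hSV hz
  have hmem : ∀ l ∈ L, ∀ z ∈ S, z ∈ l → l ∈ mee L S := by
    intro l hl z hz hzl
    simp only [mee, Finset.mem_filter]
    exact ⟨hl, z, Finset.mem_inter.2 ⟨hzl, hz⟩⟩
  have h1 : ∀ z ∈ insert x S, ∀ w ∈ insert x S, z ≠ w →
      ((mee L S).filter (fun l => z ∈ l ∧ w ∈ l)).card = 1 := by
    intro z hz w hw hzw
    apply pair_one h hmeeL hzw
    obtain ⟨l, hl, hzl, hwl⟩ := h.ex z (hTV z hz) w (hTV w hw) hzw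
    refine ⟨l, ?_, hzl, hwl⟩
    rcases Finset.mem_insert.1 hz with rfl | hz
    · rcases Finset.mem_insert.1 hw with rfl | hw
      · exact absurd rfl hzw
      · exact hmem l hl w hw hwl
    · exact hmem l hl z hz hzl
  have hq := quad (mee L S) (insert x S) v hv0 h1
  have hzero : ∑ l ∈ mee L S, (∑ z ∈ l, v z) ^ 2 = 0 := by
    apply Finset.sum_eq_zero
    intro l hl
    rw [hv l hl]
    norm_num
  rw [hzero, Finset.sum_insert hxS, Finset.sum_insert hxS] at hq
  -- number of lines through the points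
  have hrS : ∀ z ∈ S, (2 : ℝ) ≤ (((mee L S).filter (fun l => z ∈ l)).card : ℝ) := by
    intro z hz
    have h2 : (mee L S).filter (fun l => z ∈ l) = thr L z := by
      ext l
      simp only [thr, Finset.mem_filter]
      constructor
      · rintro ⟨h3, h4⟩
        exact ⟨hmeeL h3, h4⟩
      · rintro ⟨h3, h4⟩
        exact ⟨hmem l h3 z hz h4, h4⟩
    rw [h2]
    exact_mod_cast two_thr h (hSV hz)
  have hrx : (1 : ℝ) ≤ (((mee L S).filter (fun l => x ∈ l)).card : ℝ) := by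
    obtain ⟨w, hw⟩ := hSn
    obtain ⟨l, hl, hxl, hwl⟩ := h.ex x hxV w (hSV hw) (fun e => hxS (e ▸ hw))
    have : 0 < ((mee L S).filter (fun l => x ∈ l)).card :=
      Finset.card_pos.2 ⟨l, Finset.mem_filter.2 ⟨hmem l hl w hw hwl, hxl⟩⟩
    exact_mod_cast this
  have hp1 : 0 ≤ (((((mee L S).filter (fun l => x ∈ l)).card : ℝ)) - 1) * v x ^ 2 :=
    mul_nonneg (by linarith) (sq_nonneg _)
  have hp2 : ∀ z ∈ S, 0 ≤ (((((mee L S).filter (fun l => z ∈ l)).card : ℝ)) - 1) * v z ^ 2 := by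
    intro z hz
    exact mul_nonneg (by have := hrS z hz; linarith) (sq_nonneg _)
  have hp3 := Finset.sum_nonneg hp2
  have hsq := sq_nonneg (v x + ∑ z ∈ S, v z)
  have hs0 : ∑ z ∈ S, (((((mee L S).filter (fun l => z ∈ l)).card : ℝ)) - 1) * v z ^ 2 = 0 := by
    linarith
  have hsum0 : (v x + ∑ z ∈ S, v z) ^ 2 = 0 := by linarith
  have hvS : ∀ z ∈ S, v z = 0 := by
    intro z hz
    have h5 := (Finset.sum_eq_zero_iff_of_nonneg hp2).1 hs0 z hz
    have h6 := hrS z hz
    rcases mul_eq_zero.1 h5 with h7 | h7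
    · linarith
    · exact pow_eq_zero_iff (two_ne_zero) |>.1 h7
  have hvx : v x = 0 := by
    have h8 := pow_eq_zero_iff (two_ne_zero) |>.1 hsum0
    rw [Finset.sum_eq_zero hvS] at h8
    linarith
  apply hvz0
  rcases Finset.mem_insert.1 hz0 with rfl | hz
  · exact hvx
  · exact hvS z0 hz

theorem t_DBE : S_DBE := by
  intro P _ V L h
  classical
  by_contra hcon
  push Not at hcon
  obtain ⟨v, hv0, ⟨z0, hz0, hvz0⟩, hv⟩ := hom_sys V L hcon
  have h1 : ∀ z ∈ V, ∀ w ∈ V, z ≠ w →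
      (L.filter (fun l => z ∈ l ∧ w ∈ l)).card = 1 := by
    intro z hz w hw hzw
    exact pair_one h (Finset.Subset.refl _) hzw (h.ex z hz w hw hzw)
  have hq := quad L V v hv0 h1
  have hzero : ∑ l ∈ L, (∑ z ∈ l, v z) ^ 2 = 0 := by
    apply Finset.sum_eq_zero
    intro l hl
    rw [hv l hl]
    norm_num
  rw [hzero] at hq
  have hr : ∀ z ∈ V, (2 : ℝ) ≤ ((L.filter (fun l => z ∈ l)).card : ℝ) := by
    intro z hz
    exact_mod_cast two_thr h hz
  have hp2 : ∀ z ∈ V, 0 ≤ ((((L.filter (fun l => z ∈ l)).card : ℝ)) - 1) * v z ^ 2 := by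
    intro z hz
    exact mul_nonneg (by have := hr z hz; linarith) (sq_nonneg _)
  have hp3 := Finset.sum_nonneg hp2
  have hsq := sq_nonneg (∑ z ∈ V, v z)
  have hs0 : ∑ z ∈ V, ((((L.filter (fun l => z ∈ l)).card : ℝ)) - 1) * v z ^ 2 = 0 := by
    linarith
  apply hvz0
  have h5 := (Finset.sum_eq_zero_iff_of_nonneg hp2).1 hs0 z0 hz0
  have h6 := hr z0 hz0
  rcases mul_eq_zero.1 h5 with h7 | h7
  · linarith
  · exact pow_eq_zero_iff (two_ne_zero) |>.1 h7

end Pool.Agent.Q96.PLP
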