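import Pool.Agent.Q25.PLP.Stm

/-!
# Job PLP-CB (project PLP of helper25)
-/

set_option autoImplicit false

open Finset Pool.Agent.Q25.PLP

namespace Pool.Agent.Q96.PLP

theorem t_CB : S_CB := by
  intro P _ V L h x hxV S hSV hxS A hA hAS M hM hxM hMA
  classical
  have hAL : ∀ l ∈ A, l ∈ L := fun l hl => (Finset.mem_filter.1 (hA hl)).1
  have hAx : ∀ l ∈ A, x ∈ l := fun l hl => (Finset.mem_filter.1 (hA hl)).2
  -- a point of each line of A
  have hy : ∀ l : Finset P, ∃ y : P, l ∈ A → y ∈ l ∧ y ≠ x := by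
    intro l
    by_cases hl : l ∈ A
    · obtain ⟨y, hy1, hy2⟩ := Finset.exists_mem_ne
        (show 1 < l.card by have := h.two_le l (hAL l hl); omega) x
      exact ⟨y, fun _ => ⟨hy1, hy2⟩⟩
    · exact ⟨x, fun h => absurd h hl⟩
  choose y hy using hy
  have hyinj : ∀ l ∈ A, ∀ l' ∈ A, y l = y l' → l = l' := by
    intro l hl l' hl' he
    refine h.uniq l (hAL l hl) l' (hAL l' hl') (y l) x (hy l hl).2 (hy l hl).1 (hAx l hl) ?_
      (hAx l' hl')
    rw [he]
    exact (hy l' hl').1
  have hyM : ∀ l ∈ A, y l ∉ M := by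
    intro l hl hm
    apply hMA
    have := h.uniq l (hAL l hl) M hM (y l) x (hy l hl).2 (hy l hl).1 (hAx l hl) hm hxM
    rwa [← this]
  have hyS : ∀ l ∈ A, y l ∉ S := by
    intro l hl hs
    have h1 := hAS l hl
    have h2 : y l ∈ l ∩ S := Finset.mem_inter.2 ⟨(hy l hl).1, hs⟩
    rw [h1] at h2
    exact absurd h2 (Finset.notMem_empty _)
  have hyV : ∀ l ∈ A, y l ∈ V := fun l hl => h.sub l (hAL l hl) (hy l hl).1
  -- first count
  have hc1 : M.card + (S \ M).card + A.card ≤ V.card := by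
    have e1 : (A.image y).card = A.card :=
      Finset.card_image_of_injOn (fun a ha b hb hab => hyinj a ha b hb hab)
    have d1 : Disjoint M (S \ M) := Finset.disjoint_sdiff
    have d2 : Disjoint (M ∪ (S \ M)) (A.image y) := by
      rw [Finset.disjoint_left]
      intro a ha hb
      obtain ⟨l, hl, rfl⟩ := Finset.mem_image.1 hb
      rcases Finset.mem_union.1 ha with h3 | h3
      · exact hyM l hl h3
      · exact hyS l hl (Finset.mem_sdiff.1 h3).1
    rw [← e1, ← Finset.card_union_of_disjoint d1, ← Finset.card_union_of_disjoint d2]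
    apply Finset.card_le_card
    intro a ha
    rcases Finset.mem_union.1 ha with h3 | h3
    · rcases Finset.mem_union.1 h3 with h4 | h4
      · exact h.sub M hM h4
      · exact hSV (Finset.mem_sdiff.1 h4).1
    · obtain ⟨l, hl, rfl⟩ := Finset.mem_image.1 h3
      exact hyV l hl
  -- the line through y l and z
  have hf : ∀ p : Finset P × P, ∃ m : Finset P, p ∈ A ×ˢ (S ∩ M) → m ∈ L ∧ y p.1 ∈ m ∧ p.2 ∈ m := by
    intro p
    by_cases hp : p ∈ A ×ˢ (S ∩ M)
    · have hp' := Finset.mem_product.1 hp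
      have hz := Finset.mem_inter.1 hp'.2
      obtain ⟨m, hm, h1, h2⟩ := h.ex (y p.1) (hyV _ hp'.1) p.2 (hSV hz.1)
        (fun e => hyM _ hp'.1 (e ▸ hz.2))
      exact ⟨m, fun _ => ⟨hm, h1, h2⟩⟩
    · exact ⟨∅, fun h => absurd h hp⟩
  choose f hf using hf
  have hfx : ∀ p ∈ A ×ˢ (S ∩ M), x ∉ f p := by
    intro p hp hx
    have hp' := Finset.mem_product.1 hp
    have hz := Finset.mem_inter.1 hp'.2
    obtain ⟨h1, h2, h3⟩ := hf p hp
    have hne : p.2 ≠ x := fun e => hxS (e ▸ hz.1)
    have := h.uniq (f p) h1 M hM p.2 x hne h3 hx hz.2 hxM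
    rw [this] at h2
    exact hyM _ hp'.1 h2
  have hfm : ∀ p ∈ A ×ˢ (S ∩ M), f p ∈ mis L x S := by
    intro p hp
    have hp' := Finset.mem_product.1 hp
    have hz := Finset.mem_inter.1 hp'.2
    simp only [mis, Finset.mem_filter]
    exact ⟨(hf p hp).1, hfx p hp, p.2, Finset.mem_inter.2 ⟨(hf p hp).2.2, hz.1⟩⟩
  -- fibres
  have hfib : ∀ m ∈ mis L x S, ((A ×ˢ (S ∩ M)).filter (fun p => f p = m)).card ≤
      (A.filter (fun l => y l ∈ m)).card := by
    intro m hm
    have hm' := (Finset.mem_filter.1 hm)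
    apply Finset.card_le_card_of_injOn (fun p => p.1)
    · intro p hp
      have hp' := Finset.mem_filter.1 (Finset.mem_coe.1 hp)
      have := (hf p hp'.1).2.1
      rw [hp'.2] at this
      exact Finset.mem_coe.2 (Finset.mem_filter.2 ⟨(Finset.mem_product.1 hp'.1).1, this⟩)
    · intro p hp q hq hpq
      have hp' := Finset.mem_filter.1 (Finset.mem_coe.1 hp)
      have hq' := Finset.mem_filter.1 (Finset.mem_coe.1 hq)
      have hp2 := (hf p hp'.1).2.2
      have hq2 := (hf q hq'.1).2.2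
      rw [hp'.2] at hp2
      rw [hq'.2] at hq2
      have hpz := Finset.mem_inter.1 (Finset.mem_product.1 hp'.1).2
      have hqz := Finset.mem_inter.1 (Finset.mem_product.1 hq'.1).2
      have h2 : p.2 = q.2 := by
        by_contra hne
        have := h.uniq m hm'.1 M hM p.2 q.2 hne hp2 hq2 hpz.2 hqz.2
        exact hm'.2.1 (this ▸ hxM)
      exact Prod.ext hpq h2
  have hcnt : A.card * (S ∩ M).card =
      ∑ m ∈ mis L x S, ((A ×ˢ (S ∩ M)).filter (fun p => f p = m)).card := by
    rw [← Finset.card_product]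
    exact Finset.card_eq_sum_card_fiberwise (fun p hp => Finset.mem_coe.2 (hfm p hp))
  have hoff : ∑ m ∈ mis L x S,
      (A.offDiag.filter (fun p => y p.1 ∈ m ∧ y p.2 ∈ m)).card ≤ A.offDiag.card := by
    have e1 : ∑ m ∈ mis L x S, (A.offDiag.filter (fun p => y p.1 ∈ m ∧ y p.2 ∈ m)).card =
        ∑ p ∈ A.offDiag, ((mis L x S).filter (fun m => y p.1 ∈ m ∧ y p.2 ∈ m)).card := by
      simp only [Finset.card_filter]
      exact Finset.sum_comm
    rw [e1, Finset.card_eq_sum_ones]
    apply Finset.sum_le_sum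
    intro p hp
    obtain ⟨h1, h2, h3⟩ := Finset.mem_offDiag.1 hp
    rw [Finset.card_le_one]
    intro a ha b hb
    obtain ⟨ha1, ha2, ha3⟩ := Finset.mem_filter.1 ha
    obtain ⟨hb1, hb2, hb3⟩ := Finset.mem_filter.1 hb
    exact h.uniq a (Finset.mem_filter.1 ha1).1 b (Finset.mem_filter.1 hb1).1 (y p.1) (y p.2)
      (fun e => h3 (hyinj _ h1 _ h2 e)) ha2 ha3 hb2 hb3
  have hloc : ∀ m ∈ mis L x S, (A.filter (fun l => y l ∈ m)).card ≤
      1 + (A.offDiag.filter (fun p => y p.1 ∈ m ∧ y p.2 ∈ m)).card := by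
    intro m _
    have e1 : A.offDiag.filter (fun p => y p.1 ∈ m ∧ y p.2 ∈ m) =
        (A.filter (fun l => y l ∈ m)).offDiag := by
      ext p
      simp only [Finset.mem_filter, Finset.mem_offDiag]
      tauto
    rw [e1, Finset.offDiag_card]
    generalize (A.filter (fun l => y l ∈ m)).card = a
    rcases Nat.lt_or_ge a 1 with h1 | h1
    · omega
    · obtain ⟨b, rfl⟩ : ∃ b, a = b + 1 := ⟨a - 1, by omega⟩
      have : (b + 1) * (b + 1) - (b + 1) = b * b + b := by
        have : (b + 1) * (b + 1) = b * b + b + (b + 1) := by ring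
        omega
      rw [this]
      nlinarith
  have hfin : A.card * (S ∩ M).card ≤ (mis L x S).card + A.card * A.card := by
    calc A.card * (S ∩ M).card
        = ∑ m ∈ mis L x S, ((A ×ˢ (S ∩ M)).filter (fun p => f p = m)).card := hcnt
      _ ≤ ∑ m ∈ mis L x S, (1 + (A.offDiag.filter (fun p => y p.1 ∈ m ∧ y p.2 ∈ m)).card) :=
          Finset.sum_le_sum (fun m hm => (hfib m hm).trans (hloc m hm))
      _ = (mis L x S).card + ∑ m ∈ mis L x S,
            (A.offDiag.filter (fun p => y p.1 ∈ m ∧ y p.2 ∈ m)).card := by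
          rw [Finset.sum_add_distrib]
          simp
      _ ≤ (mis L x S).card + A.offDiag.card := by gcongr
      _ ≤ _ := by
          rw [Finset.offDiag_card]
          omega
  have hsplit : S.card = (S ∩ M).card + (S \ M).card := by
    rw [Finset.card_inter_add_card_sdiff]
  have hmul : A.card * (M.card + (S \ M).card + A.card) ≤ A.card * V.card :=
    Nat.mul_le_mul_left _ hc1
  rw [hsplit]
  nlinarith

end Pool.Agent.Q96.PLP
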